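import Pool.Agent.NS45.Frac
import Pool.Agent.NS45.Web
import Pool.Agent.NS45.Defs

/-!
# Unit disk graphs in narrow strips

Let `f(w)` be the supremum of the imperfection ratios of the unit disk graphs whose points lie in a
strip of width `w`. For `w ≤ √3/2` these graphs are known to be perfect, so `f(w) = 1`. We show that
`3/2 ≤ f(w) ≤ 1 + 1/(1 + 2 √(1 - w²))` for `√3/2 < w ≤ 1`. The upper bound tends to `3/2` if `w`
tends to `√3/2`.
-/

set_option autoImplicit false

namespace Pool.Agent.Results.MP_25dd49_co.NarrowStrips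

open Finset Pool.Agent.UDR57 Pool.Agent.NS45

theorem dist_iff {n : ℕ} (p : Fin n → EuclideanSpace ℝ (Fin 2)) (u v : Fin n) :
    dist (p u) (p v) ≤ 1 ↔ (p u 0 - p v 0) ^ 2 + (p u 1 - p v 1) ^ 2 ≤ 1 := by
  rw [EuclideanSpace.dist_eq, Real.sqrt_le_one, Fin.sum_univ_two, Real.dist_eq, Real.dist_eq,
    sq_abs, sq_abs]

/-- the upper bound -/
theorem upper (w : ℝ) (n : ℕ) (p : Fin n → EuclideanSpace ℝ (Fin 2)) (hw1 : w ≤ 1)
    (hp : InStrip w p) : ImpLE p (1 + 1 / (1 + 2 * √(1 - w ^ 2))) := by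
  classical
  obtain ⟨a, b, hab, hs⟩ := hp
  intro x H hH k hk
  have hr0 : 0 ≤ √(1 - w ^ 2) := Real.sqrt_nonneg _
  have hc0 : 0 ≤ 1 + 1 / (1 + 2 * √(1 - w ^ 2)) := by positivity
  rcases isEmpty_or_nonempty (Fin n) with hn | hn
  · refine ⟨fun _ => 0, fun _ => le_rfl, fun I hI => absurd rfl hI, fun w => hn.elim w.1, ?_⟩
    simp only [sum_const_zero]
    exact mul_nonneg hc0 (Nat.cast_nonneg k)
  obtain ⟨v0, -, hv0⟩ := Finset.exists_min_image (Finset.univ : Finset (Fin n))
    (fun v => a * p v 0 + b * p v 1) Finset.univ_nonempty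
  have hw0 : 0 ≤ w := (abs_nonneg _).trans (hs v0 v0)
  have hr : √(1 - w ^ 2) ^ 2 = 1 - w ^ 2 := Real.sq_sqrt (by nlinarith)
  let X : (Σ v : Fin n, Fin (x v)) → ℝ := fun u => b * p u.1 0 - a * p u.1 1
  let Y : (Σ v : Fin n, Fin (x v)) → ℝ := fun u =>
    (a * p u.1 0 + b * p u.1 1) - (a * p v0 0 + b * p v0 1)
  have hY : ∀ u, 0 ≤ Y u ∧ Y u ≤ w := by
    intro u
    refine ⟨sub_nonneg.2 (hv0 u.1 (Finset.mem_univ _)), ?_⟩
    have h1 := (abs_le.1 (hs u.1 v0)).2
    simp only [Y]
    linarith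
  have hdd : ∀ u v : (Σ v : Fin n, Fin (x v)),
      dd X Y u v = (p u.1 0 - p v.1 0) ^ 2 + (p u.1 1 - p v.1 1) ^ 2 := by
    intro u v
    have h1 : dd X Y u v = (a ^ 2 + b ^ 2) *
        ((p u.1 0 - p v.1 0) ^ 2 + (p u.1 1 - p v.1 1) ^ 2) := by
      simp only [dd, X, Y]; ring
    rw [h1, hab, one_mul]
  have hdist : ∀ u v : (Σ v : Fin n, Fin (x v)),
      (u.1 = v.1 ∨ dist (p u.1) (p v.1) ≤ 1) ↔ dd X Y u v ≤ 1 := by
    intro u v
    rw [dist_iff, ← hdd]
    constructor
    · rintro (h | h)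
      · rw [hdd, h]; norm_num
      · exact h
    · exact fun h => Or.inr h
  have hk' : ∀ s : Finset (Σ v : Fin n, Fin (x v)),
      (∀ a ∈ s, ∀ b ∈ s, dd X Y a b ≤ 1) → s.card ≤ k := by
    intro s hs
    apply hk
    intro u hu v hv huv
    rw [hH]
    exact ⟨huv, (hdist u v).2 (hs u hu v hv)⟩
  rcases Nat.eq_zero_or_pos k with hk0 | hk0
  · have hempty : IsEmpty (Σ v : Fin n, Fin (x v)) := by
      constructor
      intro u
      have h1 := hk' {u} (by
        intro b hb c hc
        rw [Finset.mem_singleton] at hb hc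
        rw [hb, hc]
        simp [dd])
      simp [hk0] at h1
    refine ⟨fun _ => 0, fun _ => le_rfl, fun I hI => absurd rfl hI, fun w => hempty.elim w, ?_⟩
    simp [hk0]
  · obtain ⟨y, hy1, hy2, hy3, hy4⟩ := strip_frac X Y hr0 hw1 hr hY k hk0 hk'
    refine ⟨y, hy1, ?_, ?_, hy4⟩
    · intro I hI u hu v hv huv hadj
      exact hy2 I hI u hu v hv huv ((hdist u v).1 ((hH u v).1 hadj).2)
    · intro w
      refine (hy3 w).trans (le_of_eq ?_)
      apply Finset.sum_congr rfl
      intro I _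
      exact if_congr Iff.rfl rfl rfl

/-- the lower bound -/
theorem lower (w c : ℝ) (hw : √3 / 2 < w) (hc : c < 3 / 2) :
    ∃ (n : ℕ) (p : Fin n → EuclideanSpace ℝ (Fin 2)), InStrip w p ∧ ¬ ImpLE p c := by
  classical
  obtain ⟨n, X, Y, k, h1, h2, h3, h4⟩ := exists_web w c hw hc
  let p : Fin n → EuclideanSpace ℝ (Fin 2) := fun v => !₂[X v, Y v]
  have hp0 : ∀ v, p v 0 = X v := fun v => rfl
  have hp1 : ∀ v, p v 1 = Y v := fun v => rfl
  refine ⟨n, p, ⟨0, 1, by norm_num, ?_⟩, ?_⟩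
  · intro u v
    rw [hp1, hp1, zero_mul, zero_add, one_mul]
    exact h1 u v
  · intro hI
    let x : Fin n → ℕ := fun _ => 1
    let H : SimpleGraph (Σ v : Fin n, Fin (x v)) :=
      { Adj := fun a b => a ≠ b ∧ (a.1 = b.1 ∨ dist (p a.1) (p b.1) ≤ 1)
        symm := ⟨fun a b h => ⟨h.1.symm, h.2.elim (fun e => Or.inl e.symm)
          fun e => Or.inr (by rw [dist_comm]; exact e)⟩⟩
        loopless := ⟨fun a h => h.1 rfl⟩ }
    have hinj : Function.Injective (fun a : (Σ v : Fin n, Fin (x v)) => a.1) := by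
      rintro ⟨a, i⟩ ⟨b, j⟩ h
      simp only at h
      subst h
      have : i = j := Subsingleton.elim (α := Fin 1) i j
      rw [this]
    have hdist : ∀ a b : Fin n, dist (p a) (p b) ≤ 1 ↔ dd X Y a b ≤ 1 := by
      intro a b
      rw [dist_iff, hp0, hp0, hp1, hp1]
      exact Iff.rfl
    obtain ⟨y, y1, y2, y3, y4⟩ := hI x H (fun a b => Iff.rfl) k (by
      intro s hs
      have e1 : (s.image (fun a => a.1)).card ≤ k := by
        apply h2
        intro a ha b hb
        obtain ⟨a', ha', rfl⟩ := Finset.mem_image.1 ha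
        obtain ⟨b', hb', rfl⟩ := Finset.mem_image.1 hb
        by_cases hab : a' = b'
        · rw [hab]; simp [dd]
        · rcases (hs ha' hb' hab).2 with h | h
          · rw [h]; simp [dd]
          · exact (hdist _ _).1 h
      rwa [Finset.card_image_of_injective s hinj] at e1)
    have hcard : ∀ I : Finset (Σ v : Fin n, Fin (x v)), y I ≠ 0 → I.card ≤ 2 := by
      intro I hI0
      have e1 : (I.image (fun a => a.1)).card ≤ 2 := by
        apply h3
        intro a ha b hb hab
        obtain ⟨a', ha', rfl⟩ := Finset.mem_image.1 ha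
        obtain ⟨b', hb', rfl⟩ := Finset.mem_image.1 hb
        have hne : a' ≠ b' := fun h => hab (by rw [h])
        have h5 := y2 I hI0 ha' hb' hne
        by_contra hcon
        push Not at hcon
        exact h5 ⟨hne, Or.inr ((hdist _ _).2 hcon)⟩
      rwa [Finset.card_image_of_injective I hinj] at e1
    have hn : (n : ℝ) ≤ 2 * ∑ I : Finset (Σ v : Fin n, Fin (x v)), y I := by
      have e1 : (n : ℝ) = ∑ _u : (Σ v : Fin n, Fin (x v)), (1 : ℝ) := by
        rw [Finset.sum_const, Finset.card_univ, nsmul_eq_mul, mul_one]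
        simp [Fintype.card_sigma, x]
      rw [e1]
      calc ∑ _u : (Σ v : Fin n, Fin (x v)), (1 : ℝ)
          ≤ ∑ u : (Σ v : Fin n, Fin (x v)),
              ∑ I : Finset (Σ v : Fin n, Fin (x v)), (if u ∈ I then y I else 0) :=
            Finset.sum_le_sum fun u _ => y3 u
        _ = ∑ I : Finset (Σ v : Fin n, Fin (x v)),
              ∑ u : (Σ v : Fin n, Fin (x v)), (if u ∈ I then y I else 0) := Finset.sum_comm
        _ = ∑ I : Finset (Σ v : Fin n, Fin (x v)), (I.card : ℝ) * y I := by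
            apply Finset.sum_congr rfl
            intro I _
            rw [Finset.sum_ite_mem, Finset.univ_inter, Finset.sum_const, nsmul_eq_mul]
        _ ≤ ∑ I : Finset (Σ v : Fin n, Fin (x v)), 2 * y I := by
            apply Finset.sum_le_sum
            intro I _
            by_cases hI0 : y I = 0
            · rw [hI0]; simp
            · have := hcard I hI0
              exact mul_le_mul_of_nonneg_right (by exact_mod_cast this) (y1 I)
        _ = 2 * ∑ I : Finset (Σ v : Fin n, Fin (x v)), y I := by rw [Finset.mul_sum]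
    have : (n : ℝ) ≤ 2 * c * k := by
      calc (n : ℝ) ≤ 2 * ∑ I : Finset (Σ v : Fin n, Fin (x v)), y I := hn
        _ ≤ 2 * (c * k) := by linarith
        _ = 2 * c * k := by ring
    linarith

/-- Let `√3/2 < w ≤ 1`. Every unit disk graph whose points lie in a strip of width `w` has
imperfection ratio at most `1 + 1/(1 + 2 √(1 - w²))`, and for every `c < 3/2` there is one whose
imperfection ratio is larger than `c`. -/
theorem result (w : ℝ) (hw : √3 / 2 < w) (hw1 : w ≤ 1) :
    (∀ (n : ℕ) (p : Fin n → EuclideanSpace ℝ (Fin 2)), InStrip w p →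
      ImpLE p (1 + 1 / (1 + 2 * √(1 - w ^ 2)))) ∧
    (∀ c : ℝ, c < 3 / 2 →
      ∃ (n : ℕ) (p : Fin n → EuclideanSpace ℝ (Fin 2)), InStrip w p ∧ ¬ ImpLE p c) :=
  ⟨fun n p hp => upper w n p hw1 hp, fun c hc => lower w c hw hc⟩

end Pool.Agent.Results.MP_25dd49_co.NarrowStrips
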