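import Mathlib

set_option autoImplicit false

namespace Pool.Agent.Results.MP_25dd49_co.StabilityTwo

open Finset

/-! ### Two cliques: a proper colouring with clique-number many colours, by Hall's theorem -/

theorem cobip {V : Type*} [Fintype V] [DecidableEq V] (H : SimpleGraph V) (k : ℕ)
    (hk : ∀ s : Finset V, H.IsClique (s : Set V) → s.card ≤ k)
    (K L : Finset V) (hK : H.IsClique (K : Set V)) (hL : H.IsClique (L : Set V)) :
    ∃ cls : Fin k → Finset V, (∀ t, H.IsIndepSet (cls t : Set V)) ∧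
      ∀ w, (w ∈ K ∨ w ∈ L) → ∃ t, w ∈ cls t := by
  classical
  obtain ⟨d, hd⟩ : ∃ d, L.card + d = k := ⟨k - L.card, by have := hk L hL; omega⟩
  let T : {a // a ∈ K} → Finset (V ⊕ Fin d) := fun a =>
    Finset.disjSum (L.filter fun b => ¬ H.Adj a.1 b) (Finset.univ : Finset (Fin d))
  have hall : ∀ S : Finset {a // a ∈ K}, S.card ≤ (S.biUnion T).card := by
    intro S
    rcases S.eq_empty_or_nonempty with rfl | ⟨a0, ha0⟩
    · simp
    -- the non-neighbourhood of `S` in `L`
    let N : Finset V := L.filter fun b => ∃ a ∈ S, ¬ H.Adj a.1 b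
    have hN : S.biUnion T = Finset.disjSum N (Finset.univ : Finset (Fin d)) := by
      ext x
      simp only [Finset.mem_biUnion, T, N]
      rcases x with x | x
      · simp only [Finset.inl_mem_disjSum, Finset.mem_filter]
        constructor
        · rintro ⟨a, ha, hx, hax⟩
          exact ⟨hx, a, ha, hax⟩
        · rintro ⟨hx, a, ha, hax⟩
          exact ⟨a, ha, hx, hax⟩
      · simp only [Finset.inr_mem_disjSum, Finset.mem_univ, and_true, iff_true]
        exact ⟨a0, ha0⟩
    have hcl : H.IsClique (((S.map (Function.Embedding.subtype _)) ∪ (L \ N) : Finset V) : Set V) := by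
      intro a ha b hb hab
      simp only [Finset.coe_union, Set.mem_union, Finset.mem_coe, Finset.mem_map,
        Function.Embedding.subtype_apply, Finset.mem_sdiff] at ha hb
      rcases ha with ⟨a', ha', rfl⟩ | ⟨haL, haN⟩
      · rcases hb with ⟨b', hb', rfl⟩ | ⟨hbL, hbN⟩
        · exact hK a'.2 b'.2 hab
        · by_contra hcon
          exact hbN (Finset.mem_filter.2 ⟨hbL, a', ha', hcon⟩)
      · rcases hb with ⟨b', hb', rfl⟩ | ⟨hbL, hbN⟩
        · by_contra hcon
          exact haN (Finset.mem_filter.2 ⟨haL, b', hb', fun h => hcon h.symm⟩)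
        · exact hL haL hbL hab
    have hdisj : Disjoint (S.map (Function.Embedding.subtype _)) (L \ N) := by
      rw [Finset.disjoint_left]
      intro a ha ha'
      simp only [Finset.mem_map, Function.Embedding.subtype_apply, Finset.mem_sdiff] at ha ha'
      obtain ⟨a', hS, rfl⟩ := ha
      exact ha'.2 (Finset.mem_filter.2 ⟨ha'.1, a', hS, H.loopless.irrefl _⟩)
    have h1 := hk _ hcl
    rw [Finset.card_union_of_disjoint hdisj, Finset.card_map,
      Finset.card_sdiff_of_subset (Finset.filter_subset _ _)] at h1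
    rw [hN, Finset.card_disjSum, Finset.card_univ, Fintype.card_fin]
    have h2 : N.card ≤ L.card := Finset.card_filter_le _ _
    change S.card + (L.card - N.card) ≤ k at h1
    omega
  obtain ⟨f, hfinj, hf⟩ := (Finset.all_card_le_biUnion_card_iff_exists_injective T).1 hall
  have hcard : (Finset.disjSum L (Finset.univ : Finset (Fin d))).card = k := by
    rw [Finset.card_disjSum, Finset.card_univ, Fintype.card_fin, hd]
  let e := Finset.equivFinOfCardEq hcard
  refine ⟨fun t => Finset.univ.filter fun w =>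
    (e.symm t).1 = Sum.inl w ∨ ∃ h : w ∈ K, f ⟨w, h⟩ = (e.symm t).1, ?_, ?_⟩
  · intro t a ha b hb hab
    simp only [Finset.coe_filter, Finset.mem_univ, true_and] at ha hb
    change (e.symm t).1 = Sum.inl a ∨ ∃ h : a ∈ K, f ⟨a, h⟩ = (e.symm t).1 at ha
    change (e.symm t).1 = Sum.inl b ∨ ∃ h : b ∈ K, f ⟨b, h⟩ = (e.symm t).1 at hb
    rcases ha with ha | ⟨haK, ha⟩
    · rcases hb with hb | ⟨hbK, hb⟩
      · exact absurd (Sum.inl_injective (ha.symm.trans hb)) hab
      · have h3 := hf ⟨b, hbK⟩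
        rw [hb, ha] at h3
        have h4 := (Finset.mem_filter.1 (Finset.inl_mem_disjSum.1 h3)).2
        exact fun h => h4 h.symm
    · rcases hb with hb | ⟨hbK, hb⟩
      · have h3 := hf ⟨a, haK⟩
        rw [ha, hb] at h3
        have h4 := (Finset.mem_filter.1 (Finset.inl_mem_disjSum.1 h3)).2
        exact fun h => h4 h
      · have h5 := hfinj (ha.trans hb.symm)
        exact absurd (congrArg Subtype.val h5) hab
  · intro w hw
    rcases hw with hw | hw
    · have h3 := hf ⟨w, hw⟩
      have h4 : f ⟨w, hw⟩ ∈ Finset.disjSum L (Finset.univ : Finset (Fin d)) := by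
        revert h3
        generalize f ⟨w, hw⟩ = x
        intro h3
        rcases x with x | x
        · exact Finset.inl_mem_disjSum.2 (Finset.mem_filter.1 (Finset.inl_mem_disjSum.1 h3)).1
        · exact Finset.inr_mem_disjSum.2 (Finset.mem_univ _)
      refine ⟨e ⟨f ⟨w, hw⟩, h4⟩, Finset.mem_filter.2 ⟨Finset.mem_univ _, Or.inr ⟨hw, ?_⟩⟩⟩
      rw [Equiv.symm_apply_apply]
    · refine ⟨e ⟨Sum.inl w, Finset.inl_mem_disjSum.2 hw⟩,
        Finset.mem_filter.2 ⟨Finset.mem_univ _, Or.inl ?_⟩⟩
      rw [Equiv.symm_apply_apply]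

/-! ### Three cliques: a fractional colouring of weight `3/2` times the clique number -/

theorem three_cliques {V : Type*} [Fintype V] [DecidableEq V] (H : SimpleGraph V) (k : ℕ)
    (hk : ∀ s : Finset V, H.IsClique (s : Set V) → s.card ≤ k)
    (c : V → Fin 3) (hc : ∀ a b, a ≠ b → c a = c b → H.Adj a b) :
    ∃ y : Finset V → ℝ,
      (∀ I, 0 ≤ y I) ∧
      (∀ I, y I ≠ 0 → H.IsIndepSet (I : Set V)) ∧
      (∀ w : V, 1 ≤ ∑ I : Finset V, if w ∈ I then y I else 0) ∧
      (∑ I : Finset V, y I) ≤ (3 / 2 : ℝ) * (k : ℝ) := by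
  classical
  have hcl : ∀ q : Fin 3, H.IsClique ((Finset.univ.filter fun v => c v = q : Finset V) : Set V) := by
    intro q a ha b hb hab
    simp only [Finset.coe_filter, Finset.mem_univ, true_and] at ha hb
    exact hc a b hab ((show c a = q from ha).trans (show c b = q from hb).symm)
  have h := fun q : Fin 3 => cobip H k hk _ _ (hcl (q + 1)) (hcl (q + 2))
  choose cls hind hcov using h
  refine ⟨fun I => ∑ q : Fin 3, ∑ t : Fin k, if I = cls q t then (1 / 2 : ℝ) else 0, ?_, ?_, ?_, ?_⟩
  · intro I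
    exact Finset.sum_nonneg fun q _ => Finset.sum_nonneg fun t _ => by split_ifs <;> norm_num
  · intro I hI
    obtain ⟨q, _, hq⟩ := Finset.exists_ne_zero_of_sum_ne_zero hI
    obtain ⟨t, _, ht⟩ := Finset.exists_ne_zero_of_sum_ne_zero hq
    have : I = cls q t := by
      by_contra hne
      simp [hne] at ht
    rw [this]
    exact hind q t
  · intro w
    have h1 : ∀ q : Fin 3, (∑ I : Finset V, if w ∈ I then
        (∑ t : Fin k, if I = cls q t then (1 / 2 : ℝ) else 0) else 0)
          = ∑ t : Fin k, if w ∈ cls q t then (1 / 2 : ℝ) else 0 := by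
      intro q
      have : ∀ I : Finset V, (if w ∈ I then
          (∑ t : Fin k, if I = cls q t then (1 / 2 : ℝ) else 0) else 0)
          = ∑ t : Fin k, if I = cls q t then (if w ∈ cls q t then (1 / 2 : ℝ) else 0) else 0 := by
        intro I
        split_ifs with hw
        · refine Finset.sum_congr rfl fun t _ => ?_
          by_cases hI : I = cls q t
          · rw [if_pos hI, if_pos hI, if_pos (hI ▸ hw)]
          · rw [if_neg hI, if_neg hI]
        · symm
          refine Finset.sum_eq_zero fun t _ => ?_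
          by_cases hI : I = cls q t
          · rw [if_pos hI, if_neg (hI ▸ hw)]
          · rw [if_neg hI]
      rw [Finset.sum_congr rfl fun I _ => this I, Finset.sum_comm]
      refine Finset.sum_congr rfl fun t _ => ?_
      rw [Finset.sum_ite_eq' Finset.univ (cls q t)]
      simp
    have h2 : (∑ I : Finset V, if w ∈ I then
        (∑ q : Fin 3, ∑ t : Fin k, if I = cls q t then (1 / 2 : ℝ) else 0) else 0)
          = ∑ q : Fin 3, ∑ t : Fin k, if w ∈ cls q t then (1 / 2 : ℝ) else 0 := by
      rw [← Finset.sum_congr rfl fun q _ => h1 q, Finset.sum_comm]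
      refine Finset.sum_congr rfl fun I _ => ?_
      split_ifs
      · rfl
      · simp
    rw [h2]
    have h3 : ∀ q : Fin 3, q ≠ c w → (1 / 2 : ℝ) ≤ ∑ t : Fin k, if w ∈ cls q t then (1 / 2 : ℝ) else 0 := by
      intro q hq
      have hmem : w ∈ (Finset.univ.filter fun v => c v = q + 1) ∨
          w ∈ (Finset.univ.filter fun v => c v = q + 2) := by
        simp only [Finset.mem_filter, Finset.mem_univ, true_and]
        generalize c w = z at hq
        revert q z
        decide
      obtain ⟨t, ht⟩ := hcov q w hmem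
      calc (1 / 2 : ℝ) = if w ∈ cls q t then (1 / 2 : ℝ) else 0 := by rw [if_pos ht]
        _ ≤ _ := Finset.single_le_sum (f := fun t => if w ∈ cls q t then (1 / 2 : ℝ) else 0)
            (fun t _ => by split_ifs <;> norm_num) (Finset.mem_univ t)
    have h4 : ∀ q : Fin 3, (if q = c w then (0:ℝ) else 1 / 2) ≤
        ∑ t : Fin k, if w ∈ cls q t then (1 / 2 : ℝ) else 0 := by
      intro q
      split_ifs with hq
      · exact Finset.sum_nonneg fun t _ => by split_ifs <;> norm_num
      · exact h3 q hq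
    have h5 : (1 : ℝ) = ∑ q : Fin 3, (if q = c w then (0:ℝ) else 1 / 2) := by
      have h6 : ∀ z q : Fin 3, (if q = z then (0:ℝ) else 1 / 2) =
          1 / 2 - (if q = z then (1 / 2 : ℝ) else 0) := by
        intro z q
        split_ifs <;> norm_num
      rw [Finset.sum_congr rfl fun q _ => h6 (c w) q, Finset.sum_sub_distrib,
        Finset.sum_ite_eq' Finset.univ (c w)]
      norm_num
    exact h5.le.trans (Finset.sum_le_sum fun q _ => h4 q)
  · rw [Finset.sum_comm]
    have : ∀ q : Fin 3, (∑ I : Finset V, ∑ t : Fin k, if I = cls q t then (1 / 2 : ℝ) else 0)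
        = (k : ℝ) / 2 := by
      intro q
      rw [Finset.sum_comm]
      have : ∀ t : Fin k, (∑ I : Finset V, if I = cls q t then (1 / 2 : ℝ) else 0) = 1 / 2 := by
        intro t
        rw [Finset.sum_ite_eq' Finset.univ (cls q t)]
        simp
      rw [Finset.sum_congr rfl fun t _ => this t]
      simp
      ring
    rw [Finset.sum_congr rfl fun q _ => this q]
    simp
    linarith

/-! ### Geometry -/

/-- Key inequality: `(u, v/√3)` lies in the `60°` cone about the first axis, `(w, z/√3)` in the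
opposite half plane, both are longer than `1`; then their difference is longer than `1`. -/
theorem key (u v w z : ℝ) (h1 : v ≤ u) (h2 : -v ≤ u) (hw : w ≤ 0)
    (hA : 1 < u ^ 2 + v ^ 2 / 3) (hB : 1 < w ^ 2 + z ^ 2 / 3) :
    1 < (u - w) ^ 2 + (v - z) ^ 2 / 3 := by
  by_contra hcon
  push Not at hcon
  have hu : 0 ≤ u := by linarith
  have huw : u * w ≤ 0 := mul_nonpos_of_nonneg_of_nonpos hu hw
  set A := u ^ 2 + v ^ 2 / 3 with hAd
  set B := w ^ 2 + z ^ 2 / 3 with hBd
  have hv2 : v ^ 2 ≤ u ^ 2 := by nlinarith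
  have h3 : A + B - 1 ≤ 2 * (v * z) / 3 := by
    rw [hAd, hBd]; nlinarith
  have h4 : 0 < A + B - 1 := by linarith
  have h5 : (A + B - 1) ^ 2 ≤ (2 * (v * z) / 3) ^ 2 := by
    apply pow_le_pow_left₀ h4.le h3
  have h6 : (2 * (v * z) / 3) ^ 2 ≤ A * B := by
    have h7 : 4 * v ^ 2 / 3 ≤ A := by rw [hAd]; linarith
    have h8 : z ^ 2 / 3 ≤ B := by rw [hBd]; nlinarith [sq_nonneg w]
    calc (2 * (v * z) / 3) ^ 2 = (4 * v ^ 2 / 3) * (z ^ 2 / 3) := by ring
      _ ≤ A * B := mul_le_mul h7 h8 (by positivity) (by linarith)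
  nlinarith [mul_pos (sub_pos.2 hA) (sub_pos.2 hB), sq_nonneg (A - 1), sq_nonneg (B - 1)]

abbrev E2 := EuclideanSpace ℝ (Fin 2)

/-- The three linear functionals, the scalar products with the vertices of an equilateral
triangle. -/
noncomputable def T (i : Fin 3) (a : E2) : ℝ :=
  ![a 0, (- a 0 + Real.sqrt 3 * a 1) / 2, (- a 0 - Real.sqrt 3 * a 1) / 2] i

theorem dist_sq_T (a b : E2) (i : Fin 3) :
    dist a b ^ 2 = (T i b - T i a) ^ 2 +
      ((T (i + 1) b - T (i + 1) a) - (T (i + 2) b - T (i + 2) a)) ^ 2 / 3 := by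
  have h3 : Real.sqrt 3 ^ 2 = 3 := Real.sq_sqrt (by norm_num)
  rw [EuclideanSpace.dist_eq, Real.sq_sqrt (by positivity), Fin.sum_univ_two, Real.dist_eq,
    Real.dist_eq, sq_abs, sq_abs]
  fin_cases i
  · simp [T]
    linear_combination (-(a 1 - b 1) ^ 2 / 3) * h3
  · simp [T]
    linear_combination (-(a 1 - b 1) ^ 2 / 3) * h3
  · simp [T]
    linear_combination (-(a 1 - b 1) ^ 2 / 3) * h3

theorem T_sum (a : E2) (i : Fin 3) : T i a + T (i + 1) a + T (i + 2) a = 0 := by
  fin_cases i
  · simp [T]; ring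
  · simp [T]; ring
  · simp [T]; ring

/-- If `a - v` has non-negative products with `e_{i+1}` and `e_{i+2}`, and `b - v` has a
non-negative product with `e_i`, both longer than `1`, then `a`, `b` are far apart. -/
theorem coneUp (v a b : E2) (i : Fin 3) (ha : 1 < dist v a) (hb : 1 < dist v b)
    (h1 : T (i + 1) v ≤ T (i + 1) a) (h2 : T (i + 2) v ≤ T (i + 2) a) (h3 : T i v ≤ T i b) :
    1 < dist a b := by
  have ha2 : 1 < dist v a ^ 2 := by nlinarith
  have hb2 : 1 < dist v b ^ 2 := by nlinarith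
  rw [dist_sq_T v a i] at ha2
  rw [dist_sq_T v b i] at hb2
  have s1 := T_sum v i
  have s2 := T_sum a i
  have s3 := T_sum b i
  have hk := key (-(T i a - T i v)) ((T (i + 1) a - T (i + 1) v) - (T (i + 2) a - T (i + 2) v))
    (-(T i b - T i v)) ((T (i + 1) b - T (i + 1) v) - (T (i + 2) b - T (i + 2) v))
    (by linarith) (by linarith) (by linarith) (by rw [neg_sq]; exact ha2)
    (by rw [neg_sq]; exact hb2)
  have hd : 1 < dist a b ^ 2 := by
    rw [dist_sq_T a b i]
    have : (T i b - T i a) ^ 2 +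
      ((T (i + 1) b - T (i + 1) a) - (T (i + 2) b - T (i + 2) a)) ^ 2 / 3
      = (-(T i a - T i v) - -(T i b - T i v)) ^ 2 +
        ((T (i + 1) a - T (i + 1) v) - (T (i + 2) a - T (i + 2) v) -
          ((T (i + 1) b - T (i + 1) v) - (T (i + 2) b - T (i + 2) v))) ^ 2 / 3 := by ring
    rw [this]
    exact hk
  by_contra hcon
  push Not at hcon
  nlinarith [dist_nonneg (x := a) (y := b)]

/-- The same with all signs reversed. -/
theorem coneDown (v a b : E2) (i : Fin 3) (ha : 1 < dist v a) (hb : 1 < dist v b)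
    (h1 : T (i + 1) a ≤ T (i + 1) v) (h2 : T (i + 2) a ≤ T (i + 2) v) (h3 : T i b ≤ T i v) :
    1 < dist a b := by
  have ha2 : 1 < dist v a ^ 2 := by nlinarith
  have hb2 : 1 < dist v b ^ 2 := by nlinarith
  rw [dist_sq_T v a i] at ha2
  rw [dist_sq_T v b i] at hb2
  have s1 := T_sum v i
  have s2 := T_sum a i
  have s3 := T_sum b i
  have hk := key (T i a - T i v) ((T (i + 1) a - T (i + 1) v) - (T (i + 2) a - T (i + 2) v))
    (T i b - T i v) ((T (i + 1) b - T (i + 1) v) - (T (i + 2) b - T (i + 2) v))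
    (by linarith) (by linarith) (by linarith) ha2 hb2
  have hd : 1 < dist a b ^ 2 := by
    rw [dist_sq_T a b i]
    have : (T i b - T i a) ^ 2 +
      ((T (i + 1) b - T (i + 1) a) - (T (i + 2) b - T (i + 2) a)) ^ 2 / 3
      = ((T i a - T i v) - (T i b - T i v)) ^ 2 +
        ((T (i + 1) a - T (i + 1) v) - (T (i + 2) a - T (i + 2) v) -
          ((T (i + 1) b - T (i + 1) v) - (T (i + 2) b - T (i + 2) v))) ^ 2 / 3 := by ring
    rw [this]
    exact hk
  by_contra hcon
  push Not at hcon
  nlinarith [dist_nonneg (x := a) (y := b)]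

/-- Every point has an index `i` such that all points far from it have smaller `T i`. -/
theorem cover {n : ℕ} (p : Fin n → E2)
    (h : ∀ i j l, dist (p i) (p j) ≤ 1 ∨ dist (p j) (p l) ≤ 1 ∨ dist (p i) (p l) ≤ 1) (v : Fin n) :
    ∃ i : Fin 3, ∀ q : Fin n, 1 < dist (p v) (p q) → T i (p q) < T i (p v) := by
  by_contra hcon
  push Not at hcon
  obtain ⟨q0, f0, g0⟩ := hcon 0
  obtain ⟨q1, f1, g1⟩ := hcon 1
  obtain ⟨q2, f2, g2⟩ := hcon 2
  have d : ∀ a b : Fin n, 1 < dist (p v) (p a) → 1 < dist (p v) (p b) → dist (p a) (p b) ≤ 1 := by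
    intro a b ha hb
    rcases h v a b with h | h | h
    · linarith
    · exact h
    · linarith
  by_cases c1 : T 1 (p v) ≤ T 1 (p q0)
  · have := coneUp (p v) (p q0) (p q2) 2 f0 f2 g0 c1 g2
    linarith [d q0 q2 f0 f2]
  by_cases c2 : T 2 (p v) ≤ T 2 (p q0)
  · have := coneUp (p v) (p q0) (p q1) 1 f0 f1 c2 g0 g1
    linarith [d q0 q1 f0 f1]
  by_cases c3 : T 0 (p q1) ≤ T 0 (p v)
  · have := coneDown (p v) (p q0) (p q1) 0 f0 f1 (not_le.1 c1).le (not_le.1 c2).le c3
    linarith [d q0 q1 f0 f1]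
  · have := coneUp (p v) (p q1) (p q2) 2 f1 f2 (not_le.1 c3).le g1 g2
    linarith [d q1 q2 f1 f2]

/-- Three cliques cover. -/
theorem colour {n : ℕ} (p : Fin n → E2)
    (h : ∀ i j l, dist (p i) (p j) ≤ 1 ∨ dist (p j) (p l) ≤ 1 ∨ dist (p i) (p l) ≤ 1) :
    ∃ c : Fin n → Fin 3, ∀ i j, c i = c j → dist (p i) (p j) ≤ 1 := by
  choose c hc using cover p h
  refine ⟨c, fun i j hij => ?_⟩
  by_contra hcon
  push Not at hcon
  have h1 := hc i j hcon
  have h2 := hc j i (by rwa [dist_comm] at hcon)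
  rw [← hij] at h2
  linarith

/-- **Unit disk graphs with stability number at most two.**  Let `p 0, …, p (n-1)` be points of the
plane such that among any three of them two are at distance at most `1` (that is: the unit disk
graph of these points has no stable set of size `3`).  Then the points are covered by three
cliques, and for every demand vector `x` the replicated graph `H` has a fractional colouring of
total weight at most `3/2` times its clique number; so the imperfection ratio is at most `3/2`. -/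
theorem result (n : ℕ) (p : Fin n → EuclideanSpace ℝ (Fin 2))
    (h : ∀ i j l, dist (p i) (p j) ≤ 1 ∨ dist (p j) (p l) ≤ 1 ∨ dist (p i) (p l) ≤ 1) :
    (∃ c : Fin n → Fin 3, ∀ i j, c i = c j → dist (p i) (p j) ≤ 1) ∧
    ∀ (x : Fin n → ℕ) (H : SimpleGraph (Σ v : Fin n, Fin (x v))),
      (∀ a b : (Σ v : Fin n, Fin (x v)),
          H.Adj a b ↔ (a ≠ b ∧ (a.1 = b.1 ∨ dist (p a.1) (p b.1) ≤ 1))) →
      ∀ k : ℕ,
        (∀ s : Finset (Σ v : Fin n, Fin (x v)),
            H.IsClique (s : Set (Σ v : Fin n, Fin (x v))) → s.card ≤ k) →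
        ∃ y : Finset (Σ v : Fin n, Fin (x v)) → ℝ,
          (∀ I, 0 ≤ y I) ∧
          (∀ I, y I ≠ 0 → H.IsIndepSet (I : Set (Σ v : Fin n, Fin (x v)))) ∧
          (∀ w : (Σ v : Fin n, Fin (x v)),
              1 ≤ ∑ I : Finset (Σ v : Fin n, Fin (x v)), if w ∈ I then y I else 0) ∧
          (∑ I : Finset (Σ v : Fin n, Fin (x v)), y I) ≤ (3 / 2 : ℝ) * (k : ℝ) := by
  obtain ⟨c, hc⟩ := colour p h
  refine ⟨⟨c, hc⟩, fun x H hH k hk => ?_⟩
  refine three_cliques H k hk (fun a => c a.1) fun a b hab hcab => ?_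
  exact (hH a b).2 ⟨hab, Or.inr (hc _ _ hcab)⟩

end Pool.Agent.Results.MP_25dd49_co.StabilityTwo
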