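import Pool.Agent.NS45.Frac
import Pool.Agent.NS45.Rows
import Pool.Agent.NS45.Transfer
import Pool.Agent.NS45.RowDefs
import Pool.Agent.NS45.Web3
import Pool.Agent.NS45.Web4
import Pool.Agent.NS45.Lower

/-!
# Unit disk graphs with points in two parallel strips

Let `F(η, g)` be the supremum of the imperfection ratios of the unit disk graphs whose points lie in
two parallel strips of width `η` with distance at least `g`. Let `η ≤ √3/2` and
`s = √(1 - η²) - √(1 - g²) ≥ 0` (the square root of a negative number is read as `0`). We show that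
`F(η, g) ≤ 1 + 1/(1 + 2 s)`, and if `η > 0`, then `F(η, g) ≥ 4/3` for `g < 1` and `F(η, g) ≥ 3/2` for
`g < √3/2`. The upper bound tends to `4/3` if `(η, g)` tends to `(0, 1)`, and to `3/2` if `(η, g)`
tends to `(0, √3/2)`.
-/

set_option autoImplicit false

namespace Pool.Agent.Results.MP_25dd49_co.TwoStrips

open Finset Pool.Agent.UDR57 Pool.Agent.NS45

/-- the points lie in two strips -/
theorem strips (η g : ℝ) (n : ℕ) (p : Fin n → EuclideanSpace ℝ (Fin 2)) (hη0 : 0 ≤ η)
    (hη : η ≤ √3 / 2) (hg0 : 0 ≤ g) (hs : √(1 - g ^ 2) ≤ √(1 - η ^ 2)) (hp : InTwoStrips η g p) :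
    ImpLE p (1 + 1 / (1 + 2 * (√(1 - η ^ 2) - √(1 - g ^ 2)))) := by
  classical
  obtain ⟨a, b, c, c', hab, hcc, hu⟩ := hp
  have hη2 : η ^ 2 ≤ 3 / 4 := by
    have h1 : η ^ 2 ≤ (√3 / 2) ^ 2 := pow_le_pow_left₀ hη0 hη 2
    rw [div_pow, Real.sq_sqrt (by norm_num)] at h1
    norm_num at h1
    linarith
  set ρ := √(1 - g ^ 2) with hρ
  set s := √(1 - η ^ 2) - ρ with hs'
  have hs0 : 0 ≤ s := by rw [hs']; linarith
  have hρ0 : 0 ≤ ρ := Real.sqrt_nonneg _
  have hsr : (s + ρ) ^ 2 + η ^ 2 ≤ 1 := by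
    have : s + ρ = √(1 - η ^ 2) := by rw [hs']; ring
    rw [this, Real.sq_sqrt (by linarith)]
    linarith
  have hρg : 1 ≤ ρ ^ 2 + g ^ 2 := by
    rcases le_total (g ^ 2) 1 with h | h
    · rw [hρ, Real.sq_sqrt (by linarith)]; linarith
    · linarith [sq_nonneg ρ]
  refine impLE_of p _ (by positivity) (fun v => b * p v 0 - a * p v 1)
    (fun v => a * p v 0 + b * p v 1) ?_ ?_
  · intro u v
    have h1 : (b * p u 0 - a * p u 1 - (b * p v 0 - a * p v 1)) ^ 2 +
        (a * p u 0 + b * p u 1 - (a * p v 0 + b * p v 1)) ^ 2 = (a ^ 2 + b ^ 2) *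
        ((p u 0 - p v 0) ^ 2 + (p u 1 - p v 1) ^ 2) := by ring
    rw [h1, hab, one_mul]
  · intro V _ _ f k hk0 hk
    let t : V → Bool := fun v => decide (c' ≤ a * p (f v) 0 + b * p (f v) 1)
    have ht : ∀ v, t v = true → c' ≤ a * p (f v) 0 + b * p (f v) 1 ∧
        a * p (f v) 0 + b * p (f v) 1 ≤ c' + η := by
      intro v hv
      have h1 : c' ≤ a * p (f v) 0 + b * p (f v) 1 := of_decide_eq_true hv
      rcases hu (f v) with h | h
      · exact ⟨h1, by linarith [h.2]⟩
      · exact h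
    have hf : ∀ v, t v = false → c ≤ a * p (f v) 0 + b * p (f v) 1 ∧
        a * p (f v) 0 + b * p (f v) 1 ≤ c + η := by
      intro v hv
      have h1 : ¬ c' ≤ a * p (f v) 0 + b * p (f v) 1 := of_decide_eq_false hv
      rcases hu (f v) with h | h
      · exact h
      · exact absurd h.1 h1
    refine rows_frac (fun v => b * p (f v) 0 - a * p (f v) 1)
      (fun v => a * p (f v) 0 + b * p (f v) 1) t hs0 hρ0 hη0 hη2 hsr hg0 hρg ?_ ?_ k hk0 hk
    · intro u v huv
      rw [abs_le]
      cases h : t u with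
      | true =>
        have h1 := ht u h
        have h2 := ht v (huv ▸ h)
        constructor <;> linarith [h1.1, h1.2, h2.1, h2.2]
      | false =>
        have h1 := hf u h
        have h2 := hf v (huv ▸ h)
        constructor <;> linarith [h1.1, h1.2, h2.1, h2.2]
    · intro u v huv
      rw [le_abs]
      cases h : t u with
      | true =>
        have h' : t v = false := by
          cases h2 : t v with
          | true => exact absurd (h.trans h2.symm) huv
          | false => rfl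
        have h1 := ht u h
        have h2 := hf v h'
        left
        linarith [h1.1, h2.2]
      | false =>
        have h' : t v = true := by
          cases h2 : t v with
          | true => rfl
          | false => exact absurd (h.trans h2.symm) huv
        have h1 := hf u h
        have h2 := ht v h'
        right
        linarith [h1.2, h2.1]

/-- the lower bounds -/
theorem lower_of {η g z c : ℝ} {n k q : ℕ} (X Y : Fin n → ℝ) {δ : ℝ} (hη : 2 * δ ≤ η)
    (hg : g ≤ z - 2 * δ)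
    (h1 : ∀ u, (-δ ≤ Y u ∧ Y u ≤ δ) ∨ (z - δ ≤ Y u ∧ Y u ≤ z + δ))
    (h2 : ∀ s : Finset (Fin n), (∀ a ∈ s, ∀ b ∈ s, dd X Y a b ≤ 1) → s.card ≤ k)
    (h3 : ∀ s : Finset (Fin n), (∀ a ∈ s, ∀ b ∈ s, a ≠ b → 1 < dd X Y a b) → s.card ≤ q)
    (h4 : (q : ℝ) * c * k < n) :
    ∃ (n : ℕ) (p : Fin n → EuclideanSpace ℝ (Fin 2)), InTwoStrips η g p ∧ ¬ ImpLE p c := by
  refine ⟨n, fun v => !₂[X v, Y v], ⟨0, 1, δ - η, z - δ, by norm_num, by linarith, ?_⟩,
    not_impLE X Y h2 h3 h4⟩
  intro u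
  have e : (0 : ℝ) * (!₂[X u, Y u] : EuclideanSpace ℝ (Fin 2)) 0 +
      1 * (!₂[X u, Y u] : EuclideanSpace ℝ (Fin 2)) 1 = Y u := by
    have : (!₂[X u, Y u] : EuclideanSpace ℝ (Fin 2)) 1 = Y u := rfl
    rw [this, zero_mul, zero_add, one_mul]
  simp only [e]
  rcases h1 u with h | h
  · left; constructor <;> linarith [h.1, h.2]
  · right; constructor <;> linarith [h.1, h.2]

/-- Let `0 ≤ η ≤ √3/2`, `g ≥ 0` and `s = √(1 - η²) - √(1 - g²) ≥ 0` (the square root of a negative
number is read as `0`). If all points lie in two parallel strips of width `η` at distance at least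
`g`, then the imperfection ratio of the unit disk graph is at most `1 + 1/(1 + 2 s)`. If `η > 0`, then
for every `c < 4/3` (if `g < 1`) and for every `c < 3/2` (if `g < √3/2`) there are such points with an
imperfection ratio larger than `c`. -/
theorem result (η g : ℝ) (hη0 : 0 ≤ η) (hη : η ≤ √3 / 2) (hg0 : 0 ≤ g)
    (hs : √(1 - g ^ 2) ≤ √(1 - η ^ 2)) :
    (∀ (n : ℕ) (p : Fin n → EuclideanSpace ℝ (Fin 2)), InTwoStrips η g p →
      ImpLE p (1 + 1 / (1 + 2 * (√(1 - η ^ 2) - √(1 - g ^ 2))))) ∧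
    (0 < η → ∀ c : ℝ, (c < 4 / 3 ∧ g < 1) ∨ (c < 3 / 2 ∧ g < √3 / 2) →
      ∃ (n : ℕ) (p : Fin n → EuclideanSpace ℝ (Fin 2)), InTwoStrips η g p ∧ ¬ ImpLE p c) := by
  refine ⟨fun n p hp => strips η g n p hη0 hη hg0 hs hp, fun hη1 c hc => ?_⟩
  rcases hc with ⟨hc, hg1⟩ | ⟨hc, hg1⟩
  · obtain ⟨n, X, Y, k, h1, h2, h3, h4⟩ := W4.exists_web4 (min (η / 2) ((1 - g) / 2)) c
      (lt_min (by linarith) (by linarith)) hc
    have e1 := min_le_left (η / 2) ((1 - g) / 2)
    have e2 := min_le_right (η / 2) ((1 - g) / 2)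
    exact lower_of (z := 1) X Y (by linarith) (by linarith) h1 h2 h3 (by exact_mod_cast h4)
  · obtain ⟨n, X, Y, k, h1, h2, h3, h4⟩ := exists_web3 (min (η / 2) ((√3 / 2 - g) / 2)) c
      (lt_min (by linarith) (by linarith)) hc
    have e1 := min_le_left (η / 2) ((√3 / 2 - g) / 2)
    have e2 := min_le_right (η / 2) ((√3 / 2 - g) / 2)
    exact lower_of (z := √3 / 2) X Y (by linarith) (by linarith) h1 h2 h3
      (by exact_mod_cast h4)

end Pool.Agent.Results.MP_25dd49_co.TwoStrips
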