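import Pool.Agent.UDR57.Count

set_option autoImplicit false

namespace Pool.Agent.Results.MP_25dd49_co.UpperBound2145

open Pool.Agent.UDR57

/-- For every finite unit disk graph in the plane and every vertex demand vector, the replicated
graph has a fractional colouring of total weight at most 2.145 times its clique number. -/
theorem result :
    ∀ (n : ℕ) (p : Fin n → EuclideanSpace ℝ (Fin 2)) (x : Fin n → ℕ)
      (H : SimpleGraph (Σ v : Fin n, Fin (x v))),
      (∀ a b : (Σ v : Fin n, Fin (x v)),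
          H.Adj a b ↔ (a ≠ b ∧ (a.1 = b.1 ∨ dist (p a.1) (p b.1) ≤ 1))) →
      ∀ k : ℕ,
        (∀ s : Finset (Σ v : Fin n, Fin (x v)),
            H.IsClique (s : Set (Σ v : Fin n, Fin (x v))) → s.card ≤ k) →
        ∃ y : Finset (Σ v : Fin n, Fin (x v)) → ℝ,
          (∀ I, 0 ≤ y I) ∧
          (∀ I, y I ≠ 0 → H.IsIndepSet (I : Set (Σ v : Fin n, Fin (x v)))) ∧
          (∀ w : (Σ v : Fin n, Fin (x v)),
              1 ≤ ∑ I : Finset (Σ v : Fin n, Fin (x v)), if w ∈ I then y I else 0) ∧
          (∑ I : Finset (Σ v : Fin n, Fin (x v)), y I) ≤ (2.145 : ℝ) * (k : ℝ) := by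
  classical
  intro n p x H hH k hk
  let X : (Σ v : Fin n, Fin (x v)) → ℝ := fun a => p a.1 0
  let Y : (Σ v : Fin n, Fin (x v)) → ℝ := fun a => p a.1 1
  have hdist : ∀ a b : (Σ v : Fin n, Fin (x v)),
      (a.1 = b.1 ∨ dist (p a.1) (p b.1) ≤ 1) ↔ dd X Y a b ≤ 1 := by
    intro a b
    have h1 : dist (p a.1) (p b.1) ≤ 1 ↔ dd X Y a b ≤ 1 := by
      rw [EuclideanSpace.dist_eq, Real.sqrt_le_one, Fin.sum_univ_two, Real.dist_eq, Real.dist_eq,
        sq_abs, sq_abs]
      rfl
    constructor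
    · rintro (h | h)
      · have : dd X Y a b = 0 := by simp [dd, X, Y, h]
        rw [this]
        norm_num
      · exact h1.1 h
    · intro h
      exact Or.inr (h1.2 h)
  have hk' : ∀ s : Finset (Σ v : Fin n, Fin (x v)),
      (∀ a ∈ s, ∀ b ∈ s, dd X Y a b ≤ 1) → s.card ≤ k := by
    intro s hs
    apply hk
    intro a ha b hb hab
    rw [hH]
    exact ⟨hab, (hdist a b).2 (hs a ha b hb)⟩
  rcases Nat.eq_zero_or_pos k with hk0 | hk0
  · have hempty : IsEmpty (Σ v : Fin n, Fin (x v)) := by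
      constructor
      intro a
      have h1 := hk' {a} (by
        intro b hb c hc
        rw [Finset.mem_singleton] at hb hc
        rw [hb, hc]
        simp [dd])
      simp [hk0] at h1
    refine ⟨fun _ => 0, fun _ => le_rfl, fun I hI => absurd rfl hI, fun w => hempty.elim w, ?_⟩
    simp [hk0]
  · obtain ⟨y, hy1, hy2, hy3, hy4⟩ := frac_col X Y k hk0 hk'
    refine ⟨y, hy1, ?_, ?_, hy4⟩
    · intro I hI a ha b hb hab hadj
      exact hy2 I hI a ha b hb hab ((hdist a b).1 ((hH a b).1 hadj).2)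
    · intro w
      refine (hy3 w).trans (le_of_eq ?_)
      apply Finset.sum_congr rfl
      intro I _
      exact if_congr Iff.rfl rfl rfl

end Pool.Agent.Results.MP_25dd49_co.UpperBound2145
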